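import Pool.Agent.Helper53.UV.Cell

/-!
# Project UR2 (MP_c578c8_lc): packet UV-AVG (the offset)
-/

namespace Pool.Agent.Helper57.UV

open Pool.Agent.Helper53.UV

/-- few offsets separate two numbers, first case -/
theorem cnt_le (D a b : ℕ) (hD : 0 < D) (hab : a ≤ b) :
    ((Finset.range D).filter (fun o => (b + o) / D ≠ (a + o) / D)).card ≤ b - a := by
  have h0 : (Finset.Ioc a b).card = b - a := Nat.card_Ioc a b
  rw [← h0]
  refine Finset.card_le_card_of_injOn (fun o => (b + o) / D * D - o) ?_ ?_
  · intro o ho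
    have ho' := Finset.mem_filter.1 (Finset.mem_coe.1 ho)
    have h1 : (a + o) / D ≤ (b + o) / D := Nat.div_le_div_right (by omega)
    have h2 : (a + o) / D < (b + o) / D := lt_of_le_of_ne h1 (Ne.symm ho'.2)
    have h3 : a + o < (b + o) / D * D := (Nat.div_lt_iff_lt_mul hD).1 h2
    have h4 : (b + o) / D * D ≤ b + o := Nat.div_mul_le_self _ _
    refine Finset.mem_coe.2 (Finset.mem_Ioc.2 ⟨?_, ?_⟩)
    · show a < (b + o) / D * D - o
      omega
    · show (b + o) / D * D - o ≤ b
      omega
  · intro o ho o' ho' h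
    have ho1 := Finset.mem_filter.1 (Finset.mem_coe.1 ho)
    have ho2 := Finset.mem_filter.1 (Finset.mem_coe.1 ho')
    have key : ∀ u, u ∈ (Finset.range D).filter (fun o => (b + o) / D ≠ (a + o) / D) →
        (b + u) / D * D - u + u = (b + u) / D * D := by
      intro u hu
      have hu' := Finset.mem_filter.1 hu
      have h1 : (a + u) / D ≤ (b + u) / D := Nat.div_le_div_right (by omega)
      have h2 : (a + u) / D < (b + u) / D := lt_of_le_of_ne h1 (Ne.symm hu'.2)
      have h3 : a + u < (b + u) / D * D := (Nat.div_lt_iff_lt_mul hD).1 h2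
      omega
    have k1 := key o (Finset.mem_coe.1 ho)
    have k2 := key o' (Finset.mem_coe.1 ho')
    have h' : (b + o) / D * D - o = (b + o') / D * D - o' := h
    rw [← h'] at k2
    have m1 : (b + o) / D * D - o + o ≡ 0 [MOD D] := by
      rw [k1]
      exact (Nat.modEq_zero_iff_dvd).2 (Dvd.intro_left _ rfl)
    have m2 : (b + o) / D * D - o + o' ≡ 0 [MOD D] := by
      rw [k2]
      exact (Nat.modEq_zero_iff_dvd).2 (Dvd.intro_left _ rfl)
    have m3 := Nat.ModEq.add_left_cancel' _ (m1.trans m2.symm)
    exact Nat.ModEq.eq_of_lt_of_lt m3 (Finset.mem_range.1 ho1.1) (Finset.mem_range.1 ho2.1)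

theorem cnt_two (D a b : ℕ) (hD : 0 < D) (h1 : b ≤ a + 2) (h2 : a ≤ b + 2) :
    ((Finset.range D).filter (fun o => (b + o) / D ≠ (a + o) / D)).card ≤ 2 := by
  rcases le_total a b with h | h
  · exact (cnt_le D a b hD h).trans (by omega)
  · have h3 := cnt_le D b a hD h
    have h4 : ((Finset.range D).filter (fun o => (b + o) / D ≠ (a + o) / D)) =
        ((Finset.range D).filter (fun o => (a + o) / D ≠ (b + o) / D)) := by
      refine Finset.filter_congr fun o _ => ?_
      exact ne_comm
    rw [h4]
    exact h3.trans (by omega)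

theorem gAVG : GoalAVG := by
  intro f D r hD hf
  by_contra hbad
  push Not at hbad
  have hS : ∀ o, {t : ℕ | t < r ∧ (f (t + 1) + o) / D ≠ (f t + o) / D} =
      (((Finset.range r).filter (fun t => (f (t + 1) + o) / D ≠ (f t + o) / D) : Finset ℕ) :
        Set ℕ) := by
    intro o
    ext t
    simp
  have h1 : ∑ o ∈ Finset.range D,
      ((Finset.range r).filter (fun t => (f (t + 1) + o) / D ≠ (f t + o) / D)).card ≤ 2 * r := by
    have h2 : ∑ o ∈ Finset.range D,
        ((Finset.range r).filter (fun t => (f (t + 1) + o) / D ≠ (f t + o) / D)).card =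
        ∑ t ∈ Finset.range r,
          ((Finset.range D).filter (fun o => (f (t + 1) + o) / D ≠ (f t + o) / D)).card := by
      simp only [Finset.card_filter]
      exact Finset.sum_comm
    rw [h2]
    calc ∑ t ∈ Finset.range r,
          ((Finset.range D).filter (fun o => (f (t + 1) + o) / D ≠ (f t + o) / D)).card
        ≤ ∑ t ∈ Finset.range r, 2 := by
          refine Finset.sum_le_sum fun t ht => ?_
          have := hf t (Finset.mem_range.1 ht)
          exact cnt_two D (f t) (f (t + 1)) hD this.1 this.2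
      _ = 2 * r := by
          rw [Finset.sum_const, Finset.card_range, smul_eq_mul, mul_comm]
  have h3 : ∑ o ∈ Finset.range D, 2 * r < ∑ o ∈ Finset.range D,
      ((Finset.range r).filter (fun t => (f (t + 1) + o) / D ≠ (f t + o) / D)).card * D := by
    refine Finset.sum_lt_sum_of_nonempty ⟨0, Finset.mem_range.2 hD⟩ fun o ho => ?_
    have := hbad o (Finset.mem_range.1 ho)
    rw [hS o, Set.ncard_coe_finset] at this
    exact this
  have h6 : ∑ o ∈ Finset.range D,
      ((Finset.range r).filter (fun t => (f (t + 1) + o) / D ≠ (f t + o) / D)).card * D =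
      (∑ o ∈ Finset.range D,
      ((Finset.range r).filter (fun t => (f (t + 1) + o) / D ≠ (f t + o) / D)).card) * D :=
    (Finset.sum_mul _ _ _).symm
  have h7 : ∑ _o ∈ Finset.range D, 2 * r = D * (2 * r) := by
    rw [Finset.sum_const, Finset.card_range, smul_eq_mul]
  rw [h6, h7] at h3
  have h4 := Nat.mul_le_mul_right D h1
  have h5 : D * (2 * r) = 2 * r * D := Nat.mul_comm _ _
  exact absurd (lt_of_lt_of_le h3 h4) (by rw [h5]; exact lt_irrefl _)

end Pool.Agent.Helper57.UV
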