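import Pool.Agent.Helper53.UV.Tree

/-!
# Project UR2 (MP_c578c8_lc): packet UV-PSS (passing nodes)
-/

namespace Pool.Agent.Helper57.UV

open Pool.Agent.Helper65.LinSpace (dig tab nrec ifz eq01 le01 lt01 Ctx LS num)
open Pool.Agent.Helper53.CTG (ev cut)
open Pool.Agent.Helper53.UR (kd tb1 dv pv)
open Pool.Agent.Helper53.UV

/-- The states and the contents are bounded. -/
theorem conf_lt (m : RM) (hm : m.Ok) (t : ℕ) :
    (m.conf t).1 < 2 ^ m.s ∧ ∀ x, (m.conf t).2 x < 2 ^ m.a := by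
  cases t with
  | zero => exact ⟨hm.hq0, hm.hM0⟩
  | succ t => exact ⟨hm.hN _ _, fun x => hm.hW _ _ _ _⟩

/-- The values of the nodes of height `j * q` are bounded. -/
theorem RJ_lt (m : RM) (e K b c : ℕ) (h : TOk m e K b c) (B j a : ℕ) :
    RJ m B j a < 2 ^ b := by
  have h1 : m.s ≤ b := le_trans (Nat.le_add_right _ _) h.hb
  have h2 : m.a ≤ b := h.ha
  have h5 : 2 ^ m.s ≤ 2 ^ b := Nat.pow_le_pow_right (by norm_num) h1
  have h6 : 2 ^ m.a ≤ 2 ^ b := Nat.pow_le_pow_right (by norm_num) h2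
  unfold RJ ifz
  split
  · exact lt_of_lt_of_le (conf_lt m h.hm _).1 h5
  · exact lt_of_lt_of_le ((conf_lt m h.hm _).2 _) h6

/-- A small argument is not changed by `cut`. -/
theorem cut_eq (q c n x : ℕ) (hx : x < 2 ^ c) : cut q c n x = x := by
  unfold cut
  split
  · exact Nat.mod_eq_of_lt hx
  · rfl

/-- The number of the levels above a node of height `j * (e + 3) + i`. -/
theorem dv_eq (e K j i v : ℕ) (h1 : 1 ≤ i) (h2 : i ≤ e + 2)
    (h : Nat.log 2 v + (j * (e + 3) + i) = K * (e + 3)) : dv e v = e + 3 - i := by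
  have hjK : j < K := by
    by_contra hc
    have h3 : K * (e + 3) ≤ j * (e + 3) := Nat.mul_le_mul_right _ (not_lt.mp hc)
    omega
  obtain ⟨r, rfl⟩ : ∃ r, K = j + 1 + r := ⟨K - (j + 1), by omega⟩
  have h3 : (j + 1 + r) * (e + 3) = j * (e + 3) + (e + 3) + r * (e + 3) := by ring
  have h4 : Nat.log 2 v = (e + 3 - i) + (e + 3) * r := by
    have h5 : (e + 3) * r = r * (e + 3) := Nat.mul_comm _ _
    omega
  unfold dv
  rw [h4, Nat.add_mul_mod_self_left]
  exact Nat.mod_eq_of_lt (by omega)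

/-- A node of kind `1` passes the argument and the result. -/
theorem ev_pass (m : RM) (e K b c n v x : ℕ) (h : TOk m e K b c)
    (hk : kd e (dv e v) (pv e v) = 1) (hx : x < 2 ^ c) (R : ℕ) (hR : R < 2 ^ b)
    (h1 : ev (tb m e (K * (e + 3)) b) (e + 3) c n (2 * v) x = R) :
    ev (tb m e (K * (e + 3)) b) (e + 3) c (n + 1) v x = R := by
  have hxb : x < 2 ^ b := lt_of_lt_of_le hx (Nat.pow_le_pow_right (by norm_num) h.hc)
  have h0 : tb m e (K * (e + 3)) b 0 v x 0 0 = x := by
    have h2 : tb m e (K * (e + 3)) b 0 v x 0 0 = x % 2 ^ b := by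
      simp [tb, hk, ifz, tb0]
    rw [h2, Nat.mod_eq_of_lt hxb]
  have h3 : ∀ y z, tb m e (K * (e + 3)) b 2 v x y z = y % 2 ^ b := by
    intro y z
    simp [tb, hk, ifz, tb2]
  rw [ev, h3, h0, cut_eq _ _ _ _ hx, h1, Nat.mod_eq_of_lt hR]

theorem gPSS : GoalPSS := by
  intro hK m e K b c j h hL i
  induction i with
  | zero => intro h1; omega
  | succ i ih =>
    intro _ h2 v hv hlog hk x hx
    have hv2 : 2 * v ≠ 0 := by omega
    have hlog2 : Nat.log 2 (2 * v) = Nat.log 2 v + 1 := by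
      rw [Nat.mul_comm, Nat.log_mul_base (by norm_num) hv]
    have hR := RJ_lt m e K b c h (2 ^ e) j x
    refine ev_pass m e K b c (j * (e + 3) + i) v x h hk hx _ hR ?_
    rcases Nat.eq_zero_or_pos i with hi | hi
    · subst hi
      refine hL (2 * v) hv2 ?_ x hx
      omega
    · refine ih hi (by omega) (2 * v) hv2 (by omega) ?_ x hx
      have hd : dv e v = e + 3 - (i + 1) := dv_eq e K j (i + 1) v (by omega) h2 hlog
      have hd2 : dv e (2 * v) = e + 3 - i :=
        dv_eq e K j i (2 * v) hi (by omega) (by omega)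
      have hd3 : dv e (2 * v) = dv e v + 1 := by omega
      have hp : pv e (2 * v) = 2 * pv e v := by
        unfold pv
        rw [hd3, pow_succ, Nat.mul_comm (2 ^ dv e v) 2, Nat.mul_mod_mul_left]
      rw [hd3, hp]
      refine (hK e).2.2.2.2.1 (dv e v) (pv e v) (by omega) ?_ hk
      exact Nat.mod_lt _ (by positivity)

end Pool.Agent.Helper57.UV
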